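import Mathlib

/-!
# Nets in the projective plane and in projective 3-space

Curves in `ℙ²` and surfaces in `ℙ³` are given by their equations, polynomials in three and four
variables.
-/

set_option autoImplicit false

open MvPolynomial Matrix

namespace Pool.Agent.H732_net4

/-- The linear form with coefficients `a`. -/
noncomputable def linForm {m : ℕ} (a : Fin m → ℂ) : MvPolynomial (Fin m) ℂ :=
  ∑ i, C (a i) * X i

/-- `F` is a reduced product of `d` linear forms: the product of `d` nonzero linear forms, no two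
of them proportional. -/
def IsReducedProduct {m : ℕ} (d : ℕ) (F : MvPolynomial (Fin m) ℂ) : Prop :=
  ∃ a : Fin d → Fin m → ℂ, (∀ i, a i ≠ 0) ∧ (∀ i j, i ≠ j → ∀ t : ℂ, a i ≠ t • a j) ∧
    F = ∏ i, linForm (a i)

/-- The polynomials `F v` span a pencil (a two-dimensional space) without fixed component. -/
def SpanPencil {m k : ℕ} (F : Fin k → MvPolynomial (Fin m) ℂ) : Prop :=
  Module.finrank ℂ (Submodule.span ℂ (Set.range F)) = 2 ∧ ∀ G, (∀ v, G ∣ F v) → IsUnit G

/-- The plane curves `F = 0` and `G = 0` meet in exactly `N` points of the projective plane, and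
transversally: at every common point the two gradients are linearly independent. -/
def MeetTransversally (N : ℕ) (F G : MvPolynomial (Fin 3) ℂ) : Prop :=
  {p : Projectivization ℂ (Fin 3 → ℂ) | eval p.rep F = 0 ∧ eval p.rep G = 0}.ncard = N ∧
    ∀ x : Fin 3 → ℂ, x ≠ 0 → eval x F = 0 → eval x G = 0 →
      LinearIndependent ℂ ![fun i => eval x (pderiv i F), fun i => eval x (pderiv i G)]

/-- The zero sets of `F 0, ..., F (k - 1)` are the blocks of a `(k, d)`-net in `ℙ²`. -/
structure IsNetP2 (k d : ℕ) (F : Fin k → MvPolynomial (Fin 3) ℂ) : Prop where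
  /-- there are at least three blocks -/
  three_le : 3 ≤ k
  /-- every block is given by a reduced product of `d` linear forms -/
  block : ∀ v, IsReducedProduct d (F v)
  /-- the products span a pencil without common component -/
  pencil : SpanPencil F
  /-- any two blocks meet transversally in exactly `d ^ 2` points -/
  base : ∀ v w, v ≠ w → MeetTransversally (d ^ 2) (F v) (F w)

/-- The matrix `M` parametrises the plane `h = 0`: the map `y ↦ M y` is injective and its image
consists of the vectors `x` with `h ⬝ᵥ x = 0`. -/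
def Parametrises (M : Matrix (Fin 4) (Fin 3) ℂ) (h : Fin 4 → ℂ) : Prop :=
  Function.Injective (fun y => M *ᵥ y) ∧ ∀ x : Fin 4 → ℂ, h ⬝ᵥ x = 0 ↔ ∃ y, M *ᵥ y = x

/-- The restriction of `F` to the plane parametrised by `M`, the polynomial `F (M y)` in the
coordinates `y 0, y 1, y 2` of that plane. -/
noncomputable def restrict (M : Matrix (Fin 4) (Fin 3) ℂ) (F : MvPolynomial (Fin 4) ℂ) :
    MvPolynomial (Fin 3) ℂ :=
  aeval (fun i => linForm (M i)) F

/-- The zero sets of `F 0, ..., F (k - 1)` are the blocks of a `(k, d)`-net in `ℙ³`. -/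
structure IsNetP3 (k d : ℕ) (F : Fin k → MvPolynomial (Fin 4) ℂ) : Prop where
  /-- there are at least three blocks -/
  three_le : 3 ≤ k
  /-- every block is given by a reduced product of `d` linear forms -/
  block : ∀ v, IsReducedProduct d (F v)
  /-- the products span a pencil without fixed component -/
  pencil : SpanPencil F
  /-- the intersection with a generic plane `h = 0`, i.e. with every plane outside the zero set of
  some nonzero polynomial `g` in the coefficients of `h`, is a `(k, d)`-net in that plane -/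
  generic : ∃ g : MvPolynomial (Fin 4) ℂ, g ≠ 0 ∧ ∀ h, eval h g ≠ 0 → ∀ M, Parametrises M h →
    IsNetP2 k d (fun v => restrict M (F v))

/-- All planes of all blocks pass through one common point of `ℙ³`. The planes of the block
`F v = 0` are the planes `a = 0` for the linear forms `a` dividing `F v`. -/
def IsCone {k : ℕ} (F : Fin k → MvPolynomial (Fin 4) ℂ) : Prop :=
  ∃ p : Fin 4 → ℂ, p ≠ 0 ∧ ∀ v, ∀ a : Fin 4 → ℂ, a ≠ 0 → linForm a ∣ F v → a ⬝ᵥ p = 0

/-- The three blocks of the arrangement `Q_n`. -/
noncomputable def Q (n : ℕ) : Fin 3 → MvPolynomial (Fin 4) ℂ :=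
  ![(X 0 ^ n - X 1 ^ n) * (X 2 ^ n - X 3 ^ n),
    (X 0 ^ n - X 2 ^ n) * (X 1 ^ n - X 3 ^ n),
    (X 0 ^ n - X 3 ^ n) * (X 1 ^ n - X 2 ^ n)]

/-- Projective equivalence: for some invertible matrix `T` and some bijection `σ` between the
blocks, `T` carries the zero set of `F v` onto the zero set of `G (σ v)`. -/
def ProjEquiv {k l : ℕ} (F : Fin k → MvPolynomial (Fin 4) ℂ) (G : Fin l → MvPolynomial (Fin 4) ℂ) :
    Prop :=
  ∃ (T : GL (Fin 4) ℂ) (σ : Fin k ≃ Fin l), ∀ v x,
    eval x (F v) = 0 ↔ eval ((T : Matrix (Fin 4) (Fin 4) ℂ) *ᵥ x) (G (σ v)) = 0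

end Pool.Agent.H732_net4
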