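import Mathlib
import Pool.Agent.H732_net4.Defs

/-!
# Linear forms, products of linear forms, plane sections
-/

set_option autoImplicit false

open MvPolynomial Matrix

namespace Pool.Agent.H732_net4

variable {m d : ℕ}

lemma eval_linForm (a x : Fin m → ℂ) : eval x (linForm a) = a ⬝ᵥ x := by
  simp [linForm, dotProduct]

lemma eval_prod_linForm (a : Fin d → Fin m → ℂ) (x : Fin m → ℂ) :
    eval x (∏ i, linForm (a i)) = ∏ i, (a i ⬝ᵥ x) := by
  rw [map_prod]
  exact Finset.prod_congr rfl (fun i _ => eval_linForm _ _)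

lemma eval_restrict (M : Matrix (Fin 4) (Fin 3) ℂ) (F : MvPolynomial (Fin 4) ℂ)
    (y : Fin 3 → ℂ) : eval y (restrict M F) = eval (M *ᵥ y) F := by
  unfold restrict
  induction F using MvPolynomial.induction_on with
  | C a => simp
  | add p q hp hq => rw [map_add, map_add, map_add, hp, hq]
  | mul_X p i hp =>
    rw [map_mul, map_mul, map_mul, hp, aeval_X, eval_linForm, eval_X]
    rfl

lemma linForm_ne_zero {a : Fin m → ℂ} (ha : a ≠ 0) : linForm a ≠ 0 := by
  intro h
  apply ha
  funext i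
  have h1 := congrArg (eval (Pi.single i (1 : ℂ))) h
  rw [eval_linForm, map_zero, dotProduct_single, mul_one] at h1
  exact h1

/-- A product of linear forms vanishing on a subspace has a factor vanishing on it. -/
lemma exists_factor_vanish (W : Submodule ℂ (Fin m → ℂ)) (a : Fin d → Fin m → ℂ)
    (h : ∀ x ∈ W, ∏ i, (a i ⬝ᵥ x) = 0) : ∃ i, ∀ x ∈ W, a i ⬝ᵥ x = 0 := by
  classical
  let K : Fin d → Submodule ℂ W := fun i =>
    (LinearMap.ker (dotProductEquiv ℂ (Fin m) (a i))).comap W.subtype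
  have hK : (⋃ i, (K i : Set W)) = Set.univ := by
    rw [Set.eq_univ_iff_forall]
    intro x
    have h1 := h x.1 x.2
    rw [Finset.prod_eq_zero_iff] at h1
    obtain ⟨i, _, hi⟩ := h1
    rw [Set.mem_iUnion]
    refine ⟨i, ?_⟩
    simp only [K, SetLike.mem_coe, Submodule.mem_comap, LinearMap.mem_ker]
    simpa using hi
  obtain ⟨i, hi⟩ := Subspace.exists_eq_top_of_iUnion_eq_univ hK
  refine ⟨i, fun x hx => ?_⟩
  have h1 : (⟨x, hx⟩ : W) ∈ K i := by rw [hi]; trivial
  simp only [K, Submodule.mem_comap, LinearMap.mem_ker] at h1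
  simpa using h1

/-- A linear form vanishing where two others vanish is a combination of them. -/
lemma mem_span_pair_of_vanish {a b c : Fin m → ℂ}
    (h : ∀ x, a ⬝ᵥ x = 0 → b ⬝ᵥ x = 0 → c ⬝ᵥ x = 0) :
    c ∈ Submodule.span ℂ ({a, b} : Set (Fin m → ℂ)) := by
  have h1 : dotProductEquiv ℂ (Fin m) c ∈
      Submodule.span ℂ (Set.range (fun i : Fin 2 => dotProductEquiv ℂ (Fin m) (![a, b] i))) := by
    apply mem_span_of_iInf_ker_le_ker
    intro x hx
    rw [Submodule.mem_iInf] at hx
    have ha := hx 0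
    have hb := hx 1
    simp only [LinearMap.mem_ker] at ha hb ⊢
    have := h x (by simpa using ha) (by simpa using hb)
    simpa using this
  rw [Submodule.mem_span_range_iff_exists_fun] at h1
  obtain ⟨t, ht⟩ := h1
  rw [Submodule.mem_span_pair]
  refine ⟨t 0, t 1, ?_⟩
  apply (dotProductEquiv ℂ (Fin m)).injective
  rw [← ht]
  simp [Fin.sum_univ_two]

/-- A linear form vanishing where another one vanishes is a multiple of it. -/
lemma exists_smul_of_vanish {a c : Fin m → ℂ} (h : ∀ x, a ⬝ᵥ x = 0 → c ⬝ᵥ x = 0) :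
    ∃ t : ℂ, c = t • a := by
  have h1 := mem_span_pair_of_vanish (a := a) (b := a) (c := c) (fun x hx _ => h x hx)
  rw [Set.pair_eq_singleton, Submodule.mem_span_singleton] at h1
  obtain ⟨t, ht⟩ := h1
  exact ⟨t, ht.symm⟩

/-- Two linear forms in three variables have a common zero. -/
lemma exists_meet (a b : Fin 3 → ℂ) :
    ∃ p : Projectivization ℂ (Fin 3 → ℂ), a ⬝ᵥ p.rep = 0 ∧ b ⬝ᵥ p.rep = 0 := by
  let φ : (Fin 3 → ℂ) →ₗ[ℂ] (Fin 2 → ℂ) :=
    { toFun := fun x => ![a ⬝ᵥ x, b ⬝ᵥ x]
      map_add' := fun x y => by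
        ext i; fin_cases i <;> simp [dotProduct_add]
      map_smul' := fun t x => by
        ext i; fin_cases i <;> simp [dotProduct_smul] }
  have h1 : ¬ Function.Injective φ := by
    intro hinj
    have := LinearMap.finrank_le_finrank_of_injective hinj
    rw [Module.finrank_fin_fun, Module.finrank_fin_fun] at this
    omega
  rw [← LinearMap.ker_eq_bot, Submodule.eq_bot_iff] at h1
  push Not at h1
  obtain ⟨x, hx, hx0⟩ := h1
  have hx' : φ x = 0 := hx
  have h2 := congrFun hx' 0
  have h3 := congrFun hx' 1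
  have h4 : a ⬝ᵥ x = 0 := by simpa [φ] using h2
  have h5 : b ⬝ᵥ x = 0 := by simpa [φ] using h3
  obtain ⟨t, ht⟩ := Projectivization.exists_smul_eq_mk_rep ℂ x hx0
  refine ⟨Projectivization.mk ℂ x hx0, ?_, ?_⟩
  · rw [← ht, Units.smul_def, dotProduct_smul, h4, smul_zero]
  · rw [← ht, Units.smul_def, dotProduct_smul, h5, smul_zero]

/-- The line through two points of the plane is infinite. -/
lemma infinite_of_two {a b : Fin 3 → ℂ} {p q : Projectivization ℂ (Fin 3 → ℂ)} (hpq : p ≠ q)
    (h1 : a ⬝ᵥ p.rep = 0) (h2 : a ⬝ᵥ q.rep = 0) (h3 : b ⬝ᵥ p.rep = 0) (h4 : b ⬝ᵥ q.rep = 0) :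
    {r : Projectivization ℂ (Fin 3 → ℂ) | a ⬝ᵥ r.rep = 0 ∧ b ⬝ᵥ r.rep = 0}.Infinite := by
  have hind : LinearIndependent ℂ ![p.rep, q.rep] := by
    have h1 := (Projectivization.independent_pair_iff_ne p q).mpr hpq
    rw [Projectivization.independent_iff] at h1
    have h2 : Projectivization.rep ∘ ![p, q] = ![p.rep, q.rep] := by
      funext i
      fin_cases i <;> rfl
    rw [h2] at h1
    exact h1
  rw [LinearIndependent.pair_iff] at hind
  have hne : ∀ t : ℂ, p.rep + t • q.rep ≠ 0 := by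
    intro t ht
    have := hind 1 t (by rw [one_smul]; exact ht)
    exact one_ne_zero this.1
  refine Set.infinite_of_injective_forall_mem (f := fun t : ℂ =>
    Projectivization.mk ℂ (p.rep + t • q.rep) (hne t)) ?_ ?_
  · intro s t hst
    simp only at hst
    rw [Projectivization.mk_eq_mk_iff'] at hst
    obtain ⟨c, hc⟩ := hst
    have h5 := hind (c - 1) (c * t - s) (by
      rw [sub_smul, sub_smul, one_smul, mul_smul]
      rw [smul_add] at hc
      calc c • p.rep - p.rep + (c • t • q.rep - s • q.rep)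
          = (c • p.rep + c • t • q.rep) - (p.rep + s • q.rep) := by abel
        _ = 0 := by rw [hc, sub_self])
    have hc1 : c = 1 := sub_eq_zero.mp h5.1
    have h6 := h5.2
    rw [hc1, one_mul] at h6
    exact (sub_eq_zero.mp h6).symm
  · intro t
    obtain ⟨c, hc⟩ := Projectivization.exists_smul_eq_mk_rep ℂ (p.rep + t • q.rep) (hne t)
    constructor
    · rw [← hc, Units.smul_def, dotProduct_smul, dotProduct_add, dotProduct_smul, h1, h2]
      simp
    · rw [← hc, Units.smul_def, dotProduct_smul, dotProduct_add, dotProduct_smul, h3, h4]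
      simp

end Pool.Agent.H732_net4
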