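import Mathlib
import Pool.Agent.H732_net4.Forms
import Pool.Agent.H284_net4.Comb

/-!
# From nets in projective 3-space to nets of normal vectors
-/

set_option autoImplicit false
set_option maxHeartbeats 400000

open MvPolynomial Matrix
open Pool.Agent.H284_beta Pool.Agent.H284_net4

namespace Pool.Agent.H732_net4

/-- The base points of two blocks of lines in the plane. -/
lemma base_points {d : ℕ} (a b : Fin d → Fin 3 → ℂ) (hd : 0 < d)
    (h : {p : Projectivization ℂ (Fin 3 → ℂ) |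
      ∏ i, (a i ⬝ᵥ p.rep) = 0 ∧ ∏ j, (b j ⬝ᵥ p.rep) = 0}.ncard = d ^ 2) :
    (∀ i j (p q : Projectivization ℂ (Fin 3 → ℂ)), a i ⬝ᵥ p.rep = 0 → b j ⬝ᵥ p.rep = 0 →
      a i ⬝ᵥ q.rep = 0 → b j ⬝ᵥ q.rep = 0 → p = q) ∧
    (∀ i j i' j' (p : Projectivization ℂ (Fin 3 → ℂ)), a i ⬝ᵥ p.rep = 0 → b j ⬝ᵥ p.rep = 0 →
      a i' ⬝ᵥ p.rep = 0 → b j' ⬝ᵥ p.rep = 0 → i = i' ∧ j = j') := by
  classical
  set S : Set (Projectivization ℂ (Fin 3 → ℂ)) := {p : Projectivization ℂ (Fin 3 → ℂ) |
      ∏ i, (a i ⬝ᵥ p.rep) = 0 ∧ ∏ j, (b j ⬝ᵥ p.rep) = 0} with hS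
  have hfin : S.Finite := by
    apply Set.finite_of_ncard_ne_zero
    rw [h]
    positivity
  have hmem : ∀ (i j : Fin d) (p : Projectivization ℂ (Fin 3 → ℂ)), a i ⬝ᵥ p.rep = 0 →
      b j ⬝ᵥ p.rep = 0 → p ∈ S := by
    intro i j p h1 h2
    exact ⟨Finset.prod_eq_zero (Finset.mem_univ i) h1, Finset.prod_eq_zero (Finset.mem_univ j) h2⟩
  have huniq : ∀ i j (p q : Projectivization ℂ (Fin 3 → ℂ)), a i ⬝ᵥ p.rep = 0 →
      b j ⬝ᵥ p.rep = 0 → a i ⬝ᵥ q.rep = 0 → b j ⬝ᵥ q.rep = 0 → p = q := by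
    intro i j p q h1 h2 h3 h4
    by_contra hpq
    apply infinite_of_two hpq h1 h3 h2 h4
    exact hfin.subset (fun r hr => hmem i j r hr.1 hr.2)
  refine ⟨huniq, ?_⟩
  choose P hP1 hP2 using fun (x : Fin d × Fin d) => exists_meet (a x.1) (b x.2)
  have hSP : S = ((Finset.univ.image P : Finset _) : Set (Projectivization ℂ (Fin 3 → ℂ))) := by
    ext p
    rw [Finset.coe_image, Finset.coe_univ, Set.image_univ]
    constructor
    · rintro ⟨h1, h2⟩
      rw [Finset.prod_eq_zero_iff] at h1 h2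
      obtain ⟨i, _, hi⟩ := h1
      obtain ⟨j, _, hj⟩ := h2
      exact ⟨(i, j), huniq i j _ _ (hP1 (i, j)) (hP2 (i, j)) hi hj⟩
    · rintro ⟨x, rfl⟩
      exact hmem x.1 x.2 _ (hP1 x) (hP2 x)
  have hcard : (Finset.univ.image P).card = (Finset.univ : Finset (Fin d × Fin d)).card := by
    rw [hSP, Set.ncard_coe_finset] at h
    rw [h, Finset.card_univ, Fintype.card_prod, Fintype.card_fin, sq]
  have hinj : Function.Injective P := by
    have := Finset.card_image_iff.mp hcard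
    rw [Finset.coe_univ, Set.injOn_univ] at this
    exact this
  intro i j i' j' p h1 h2 h3 h4
  have e1 : p = P (i, j) := huniq i j _ _ h1 h2 (hP1 (i, j)) (hP2 (i, j))
  have e2 : p = P (i', j') := huniq i' j' _ _ h3 h4 (hP1 (i', j')) (hP2 (i', j'))
  have e3 := hinj (e1.symm.trans e2)
  exact ⟨congrArg Prod.fst e3, congrArg Prod.snd e3⟩

/-- A line in the plane has two points. -/
lemma exists_two_points (a : Fin 3 → ℂ) :
    ∃ p q : Projectivization ℂ (Fin 3 → ℂ), p ≠ q ∧ a ⬝ᵥ p.rep = 0 ∧ a ⬝ᵥ q.rep = 0 := by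
  obtain ⟨p, hp, _⟩ := exists_meet a a
  obtain ⟨i, hi⟩ : ∃ i, p.rep i ≠ 0 := by
    by_contra hcon
    push Not at hcon
    exact p.rep_nonzero (funext hcon)
  obtain ⟨q, hq, hq'⟩ := exists_meet a (Pi.single i 1)
  refine ⟨p, q, ?_, hp, hq⟩
  rintro rfl
  rw [single_dotProduct, one_mul] at hq'
  exact hi hq'

/-- A plane not containing the first coordinate point is parametrised by a matrix. -/
lemma exists_parametrises (h : Fin 4 → ℂ) (h0 : h 0 ≠ 0) : ∃ M, Parametrises M h := by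
  refine ⟨!![-(h 1 / h 0), -(h 2 / h 0), -(h 3 / h 0); 1, 0, 0; 0, 1, 0; 0, 0, 1], ?_, ?_⟩
  · intro y z hyz
    have h1 := congrFun hyz 1
    have h2 := congrFun hyz 2
    have h3 := congrFun hyz 3
    simp [mulVec, dotProduct, Fin.sum_univ_three] at h1 h2 h3
    funext i
    fin_cases i
    · exact h1
    · exact h2
    · exact h3
  · intro x
    constructor
    · intro hx
      refine ⟨![x 1, x 2, x 3], ?_⟩
      simp only [dotProduct, Fin.sum_univ_four] at hx
      funext i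
      fin_cases i
      · simp [mulVec, dotProduct, Fin.sum_univ_three]
        field_simp
        linear_combination -hx
      · simp [mulVec, dotProduct, Fin.sum_univ_three]
      · simp [mulVec, dotProduct, Fin.sum_univ_three]
      · simp [mulVec, dotProduct, Fin.sum_univ_three]
    · rintro ⟨y, rfl⟩
      simp [mulVec, dotProduct, Fin.sum_univ_three, Fin.sum_univ_four]
      field_simp
      ring

/-- The vectors of a net in `ℙ³`: positive degree, independence, uniqueness of the third plane. -/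
lemma IsNetP3.facts {k d : ℕ} {F : Fin k → MvPolynomial (Fin 4) ℂ}
    (h : IsNetP3 k d F) (a : Fin k → Fin d → Fin 4 → ℂ) (ha0 : ∀ v i, a v i ≠ 0)
    (haF : ∀ v, F v = ∏ i, linForm (a v i)) :
    0 < d ∧ (∀ v w, v ≠ w → ∀ i j, LinearIndependent ℂ ![a v i, a w j]) ∧
      (∀ v w, v ≠ w → ∀ i j j',
        a w j' ∈ Submodule.span ℂ ({a v i, a w j} : Set (Fin 4 → ℂ)) → j' = j) := by
  classical
  -- the degree is positive
  have hd : 0 < d := by
    rcases Nat.eq_zero_or_pos d with hd | hd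
    · exfalso
      subst hd
      have h1 : ∀ v, F v = 1 := by
        intro v
        rw [haF v]
        simp
      have h2 : Set.range F ⊆ {1} := by
        rintro _ ⟨v, rfl⟩
        exact h1 v
      have h4 := h.pencil.1
      have h5 : Submodule.span ℂ (Set.range F) ≤ Submodule.span ℂ {1} :=
        Submodule.span_mono h2
      have h6 := Submodule.finrank_mono h5
      rw [h4] at h6
      have h7 := finrank_span_le_card (R := ℂ) ({1} : Set (MvPolynomial (Fin 4) ℂ))
      simp at h7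
      omega
    · exact hd
  -- a generic plane
  obtain ⟨g, hg, hgen⟩ := h.generic
  obtain ⟨h0, hh0⟩ : ∃ x : Fin 4 → ℂ, eval x (g * X 0) ≠ 0 := by
    by_contra hcon
    push Not at hcon
    have h1 : g * X 0 = 0 := by
      apply MvPolynomial.funext
      intro x
      rw [hcon x, map_zero]
    rcases mul_eq_zero.mp h1 with h2 | h2
    · exact hg h2
    · exact X_ne_zero _ h2
  rw [map_mul, eval_X] at hh0
  obtain ⟨M, hM⟩ := exists_parametrises h0 (right_ne_zero_of_mul hh0)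
  have hnet := hgen h0 (left_ne_zero_of_mul hh0) M hM
  have hev : ∀ v (y : Fin 3 → ℂ), eval y (restrict M (F v)) = ∏ i, ((a v i ᵥ* M) ⬝ᵥ y) := by
    intro v y
    rw [eval_restrict, haF v, eval_prod_linForm]
    refine Finset.prod_congr rfl (fun i _ => ?_)
    rw [dotProduct_mulVec]
  have hbase : ∀ v w, v ≠ w →
      (∀ i j (p q : Projectivization ℂ (Fin 3 → ℂ)), (a v i ᵥ* M) ⬝ᵥ p.rep = 0 →
        (a w j ᵥ* M) ⬝ᵥ p.rep = 0 → (a v i ᵥ* M) ⬝ᵥ q.rep = 0 → (a w j ᵥ* M) ⬝ᵥ q.rep = 0 →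
        p = q) ∧
      (∀ i j i' j' (p : Projectivization ℂ (Fin 3 → ℂ)), (a v i ᵥ* M) ⬝ᵥ p.rep = 0 →
        (a w j ᵥ* M) ⬝ᵥ p.rep = 0 → (a v i' ᵥ* M) ⬝ᵥ p.rep = 0 →
        (a w j' ᵥ* M) ⬝ᵥ p.rep = 0 → i = i' ∧ j = j') := by
    intro v w hvw
    apply base_points (fun i => a v i ᵥ* M) (fun j => a w j ᵥ* M) hd
    have h1 := (hnet.base v w hvw).1
    rw [← h1]
    congr 1
    ext p
    simp only [Set.mem_ofPred_eq]
    rw [hev, hev]
  refine ⟨hd, ?_, ?_⟩
  · intro v w hvw i j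
    rw [LinearIndependent.pair_iff' (ha0 v i)]
    intro t ht
    obtain ⟨p, q, hpq, hp, hq⟩ := exists_two_points (a v i ᵥ* M)
    apply hpq
    refine (hbase v w hvw).1 i j p q hp ?_ hq ?_
    · rw [← ht, smul_vecMul, smul_dotProduct, hp, smul_zero]
    · rw [← ht, smul_vecMul, smul_dotProduct, hq, smul_zero]
  · intro v w hvw i j j' hmem
    obtain ⟨p, hp1, hp2⟩ := exists_meet (a v i ᵥ* M) (a w j ᵥ* M)
    obtain ⟨s, t, hst⟩ := Submodule.mem_span_pair.mp hmem
    have hp3 : (a w j' ᵥ* M) ⬝ᵥ p.rep = 0 := by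
      rw [← hst, add_vecMul, smul_vecMul, smul_vecMul, add_dotProduct, smul_dotProduct,
        smul_dotProduct, hp1, hp2, smul_zero, smul_zero, add_zero]
    exact ((hbase v w hvw).2 i j' i j p hp1 hp3 hp1 hp2).2

/-- Vanishing on the kernel of a linear form. -/
lemma factor_of_kernel {d : ℕ} (b : Fin 4 → ℂ) (a : Fin d → Fin 4 → ℂ)
    (h : ∀ x, b ⬝ᵥ x = 0 → ∏ i, (a i ⬝ᵥ x) = 0) : ∃ i, ∃ s : ℂ, a i = s • b := by
  obtain ⟨i, hi⟩ := exists_factor_vanish (LinearMap.ker (dotProductEquiv ℂ (Fin 4) b)) a (by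
    intro x hx
    rw [LinearMap.mem_ker] at hx
    exact h x (by simpa using hx))
  refine ⟨i, exists_smul_of_vanish (fun x hx => hi x ?_)⟩
  rw [LinearMap.mem_ker]
  simpa using hx

/-- Vanishing on the common kernel of two linear forms. -/
lemma factor_of_kernel₂ {d : ℕ} (b c : Fin 4 → ℂ) (a : Fin d → Fin 4 → ℂ)
    (h : ∀ x, b ⬝ᵥ x = 0 → c ⬝ᵥ x = 0 → ∏ i, (a i ⬝ᵥ x) = 0) :
    ∃ i, a i ∈ Submodule.span ℂ ({b, c} : Set (Fin 4 → ℂ)) := by
  obtain ⟨i, hi⟩ := exists_factor_vanish (LinearMap.ker (dotProductEquiv ℂ (Fin 4) b) ⊓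
      LinearMap.ker (dotProductEquiv ℂ (Fin 4) c)) a (by
    rintro x ⟨hx1, hx2⟩
    exact h x (by simpa using hx1) (by simpa using hx2))
  refine ⟨i, mem_span_pair_of_vanish (fun x h1 h2 => hi x ⟨?_, ?_⟩)⟩
  · simpa using h1
  · simpa using h2

/-- Two blocks of a net span the pencil. -/
lemma IsNetP3.mem_span {k d : ℕ} {F : Fin k → MvPolynomial (Fin 4) ℂ}
    (h : IsNetP3 k d F) (a : Fin k → Fin d → Fin 4 → ℂ) (ha0 : ∀ v i, a v i ≠ 0)
    (haF : ∀ v, F v = ∏ i, linForm (a v i)) {v w : Fin k} (hvw : v ≠ w) (u : Fin k) :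
    ∃ s t : ℂ, s • F v + t • F w = F u := by
  classical
  obtain ⟨hd, hcross, _⟩ := h.facts a ha0 haF
  have hF0 : F v ≠ 0 := by
    rw [haF v, Finset.prod_ne_zero_iff]
    intro i _
    exact linForm_ne_zero (ha0 v i)
  have hind : LinearIndependent ℂ ![F v, F w] := by
    rw [LinearIndependent.pair_iff' hF0]
    intro t ht
    obtain ⟨j, s, hs⟩ := factor_of_kernel (a v ⟨0, hd⟩) (a w) (by
      intro x hx
      rw [← eval_prod_linForm, ← haF w, ← ht, smul_eval, haF v, eval_prod_linForm,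
        Finset.prod_eq_zero (Finset.mem_univ (⟨0, hd⟩ : Fin d)) hx, mul_zero])
    have h4 := hcross v w hvw ⟨0, hd⟩ j
    rw [LinearIndependent.pair_iff' (ha0 v _)] at h4
    exact h4 s hs.symm
  have h4 : Module.finrank ℂ (Submodule.span ℂ ({F v, F w} : Set (MvPolynomial (Fin 4) ℂ))) =
      2 := by
    have h5 := finrank_span_eq_card hind
    have h6 : Set.range ![F v, F w] = {F v, F w} := by
      rw [Matrix.range_cons, Matrix.range_cons, Matrix.range_empty]
      ext x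
      simp only [Set.union_empty, Set.mem_union, Set.mem_singleton_iff, Set.mem_insert_iff]
    rw [h6] at h5
    simpa using h5
  have h5 : Submodule.span ℂ ({F v, F w} : Set (MvPolynomial (Fin 4) ℂ)) ≤
      Submodule.span ℂ (Set.range F) := by
    apply Submodule.span_mono
    intro x hx
    simp only [Set.mem_insert_iff, Set.mem_singleton_iff] at hx
    rcases hx with rfl | rfl
    · exact ⟨v, rfl⟩
    · exact ⟨w, rfl⟩
  have : FiniteDimensional ℂ (Submodule.span ℂ (Set.range F)) :=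
    FiniteDimensional.span_of_finite ℂ (Set.finite_range F)
  have h6 := Submodule.eq_of_le_of_finrank_eq h5 (by rw [h4, h.pencil.1])
  have h7 : F u ∈ Submodule.span ℂ ({F v, F w} : Set (MvPolynomial (Fin 4) ℂ)) := by
    rw [h6]
    exact Submodule.subset_span ⟨u, rfl⟩
  exact Submodule.mem_span_pair.mp h7

/-- Existence of the third plane. -/
lemma IsNetP3.exists_third {k d : ℕ} {F : Fin k → MvPolynomial (Fin 4) ℂ}
    (h : IsNetP3 k d F) (a : Fin k → Fin d → Fin 4 → ℂ) (ha0 : ∀ v i, a v i ≠ 0)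
    (haF : ∀ v, F v = ∏ i, linForm (a v i)) {v w : Fin k} (hvw : v ≠ w) (i j : Fin d)
    (u : Fin k) : ∃ l, a u l ∈ Submodule.span ℂ ({a v i, a w j} : Set (Fin 4 → ℂ)) := by
  obtain ⟨s, t, hst⟩ := h.mem_span a ha0 haF hvw u
  apply factor_of_kernel₂
  intro x h1 h2
  rw [← eval_prod_linForm, ← haF u, ← hst, map_add, smul_eval, smul_eval, haF v, haF w,
    eval_prod_linForm, eval_prod_linForm, Finset.prod_eq_zero (Finset.mem_univ i) h1,
    Finset.prod_eq_zero (Finset.mem_univ j) h2, mul_zero, mul_zero, add_zero]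

/-- Uniqueness of the third plane. -/
lemma IsNetP3.third_unique {k d : ℕ} {F : Fin k → MvPolynomial (Fin 4) ℂ}
    (h : IsNetP3 k d F) (a : Fin k → Fin d → Fin 4 → ℂ) (ha0 : ∀ v i, a v i ≠ 0)
    (haF : ∀ v, F v = ∏ i, linForm (a v i)) {v w : Fin k} (hvw : v ≠ w) (i j : Fin d)
    (u : Fin k) (l l' : Fin d)
    (hl : a u l ∈ Submodule.span ℂ ({a v i, a w j} : Set (Fin 4 → ℂ)))
    (hl' : a u l' ∈ Submodule.span ℂ ({a v i, a w j} : Set (Fin 4 → ℂ))) : l' = l := by
  obtain ⟨_, hcross, huniq⟩ := h.facts a ha0 haF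
  by_cases huv : v = u
  · have huw : w ≠ u := by
      rw [← huv]
      exact hvw.symm
    apply huniq w u huw j l l'
    rw [span_pair_eq (hcross v w hvw i j) (hcross w u huw j l)
      (Submodule.subset_span (by simp)) hl]
    exact hl'
  · apply huniq v u huv i l l'
    rw [span_pair_eq (hcross v w hvw i j) (hcross v u huv i l)
      (Submodule.subset_span (by simp)) hl]
    exact hl'

/-- If the normals do not span, the net is a cone. -/
lemma isCone_of_span {k d : ℕ} {F : Fin k → MvPolynomial (Fin 4) ℂ}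
    (a : Fin k → Fin d → Fin 4 → ℂ) (ha0 : ∀ v i, a v i ≠ 0)
    (haF : ∀ v, F v = ∏ i, linForm (a v i))
    (hcon : Submodule.span ℂ (Set.range (fun p : Fin k × Fin d => a p.1 p.2)) ≠ ⊤) :
    IsCone F := by
  obtain ⟨φ, hφ0, hφ⟩ := Submodule.exists_le_ker_of_lt_top _ (lt_top_iff_ne_top.mpr hcon)
  obtain ⟨p, hp⟩ := (dotProductEquiv ℂ (Fin 4)).surjective φ
  have hp0 : p ≠ 0 := by
    rintro rfl
    apply hφ0
    rw [← hp, map_zero]
  have hpa : ∀ v i, a v i ⬝ᵥ p = 0 := by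
    intro v i
    have h1 : a v i ∈ LinearMap.ker φ := hφ (Submodule.subset_span ⟨(v, i), rfl⟩)
    rw [LinearMap.mem_ker, ← hp] at h1
    rw [dotProduct_comm]
    simpa using h1
  refine ⟨p, hp0, fun v b hb hdiv => ?_⟩
  obtain ⟨G, hG⟩ := hdiv
  obtain ⟨i, s, hs⟩ := factor_of_kernel b (a v) (by
    intro x hx
    rw [← eval_prod_linForm, ← haF v, hG, map_mul, eval_linForm, hx, zero_mul])
  have hs0 : s ≠ 0 := by
    rintro rfl
    apply ha0 v i
    rw [hs, zero_smul]
  have h1 := hpa v i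
  rw [hs, smul_dotProduct, smul_eq_mul] at h1
  exact (mul_eq_zero.mp h1).resolve_left hs0

/-- **The bridge**: the normals of the planes of a net in `ℙ³` which is not a cone form a net of
vectors. -/
theorem IsNetP3.exists_vnet {k d : ℕ} {F : Fin k → MvPolynomial (Fin 4) ℂ}
    (h : IsNetP3 k d F) (hc : ¬ IsCone F) :
    ∃ a : Fin k → Fin d → Fin 4 → ℂ, (∀ v i, a v i ≠ 0) ∧ (∀ v, F v = ∏ i, linForm (a v i)) ∧
      VNet (fun p : Fin k × Fin d => a p.1 p.2) Prod.fst d := by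
  classical
  have hblock := h.block
  choose a ha0 haprop haF using hblock
  refine ⟨a, ha0, haF, h.three_le, ?_, ?_, ?_, ?_⟩
  · rintro ⟨v, i⟩ ⟨w, j⟩ hpq
    by_cases hvw : v = w
    · subst hvw
      have hij : j ≠ i := by
        rintro rfl
        exact hpq rfl
      show LinearIndependent ℂ ![a v i, a v j]
      rw [LinearIndependent.pair_iff' (ha0 v i)]
      intro t ht
      exact haprop v j i hij t ht.symm
    · exact (h.facts a ha0 haF).2.1 v w hvw i j
  · -- the number of planes of a block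
    intro v
    have h4 : (Finset.univ.filter (fun p : Fin k × Fin d => p.1 = v)) =
        Finset.univ.image (fun i : Fin d => (v, i)) := by
      ext ⟨w, j⟩
      simp only [Finset.mem_filter, Finset.mem_univ, true_and, Finset.mem_image, Prod.mk.injEq]
      constructor
      · rintro rfl
        exact ⟨j, rfl, rfl⟩
      · rintro ⟨i, h1, _⟩
        exact h1.symm
    rw [h4, Finset.card_image_of_injective, Finset.card_univ, Fintype.card_fin]
    intro i j hij
    exact congrArg Prod.snd hij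
  · rintro ⟨v, i⟩ ⟨w, j⟩ hvw u
    obtain ⟨l, hl⟩ := h.exists_third a ha0 haF (show v ≠ w from hvw) i j u
    refine ⟨(u, l), ⟨?_, rfl⟩, ?_⟩
    · exact (mem_vecLine (f := fun p : Fin k × Fin d => a p.1 p.2) (i := (v, i))
        (j := (w, j)) (k := (u, l))).mpr hl
    rintro ⟨u', l'⟩ ⟨hl1, hl2⟩
    have hu' : u' = u := hl2
    subst hu'
    have hl1' : a u' l' ∈ Submodule.span ℂ ({a v i, a w j} : Set (Fin 4 → ℂ)) := by
      have h5 := (mem_vecLine (f := fun p : Fin k × Fin d => a p.1 p.2) (i := (v, i))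
        (j := (w, j)) (k := (u', l'))).mp hl1
      exact h5
    have hll := h.third_unique a ha0 haF (show v ≠ w from hvw) i j u' l l' hl hl1'
    exact Prod.ext rfl hll
  · by_contra hcon
    exact hc (isCone_of_span a ha0 haF hcon)

end Pool.Agent.H732_net4
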