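import Mathlib
import Pool.Agent.H732_net4.Bridge
import Pool.Agent.H284_net4.Classify

/-!
# Nets in projective 3-space: the classification
-/

set_option autoImplicit false
set_option maxHeartbeats 400000

open MvPolynomial Matrix
open Pool.Agent.H284_beta Pool.Agent.H284_net4

namespace Pool.Agent.H732_net4

lemma eval_Q (n : ℕ) (s : Fin 3) (x : Fin 4 → ℂ) :
    eval x (Q n s) = 0 ↔ ∃ p ∈ pairs s, x p.1 ^ n = x p.2 ^ n := by
  fin_cases s
  · simp [Q, pairs, sub_eq_zero]
  · simp [Q, pairs, sub_eq_zero]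
  · simp [Q, pairs, sub_eq_zero]

lemma pow_eq_pow_iff_root {n : ℕ} (hn : n ≠ 0) (y z : ℂ) :
    y ^ n = z ^ n ↔ ∃ ζ : ℂ, ζ ^ n = 1 ∧ y = ζ * z := by
  constructor
  · intro h
    by_cases hz : z = 0
    · subst hz
      rw [zero_pow hn] at h
      exact ⟨1, one_pow n, by rw [mul_zero]; exact pow_eq_zero_iff hn |>.mp h⟩
    · refine ⟨y / z, ?_, ?_⟩
      · rw [div_pow, h, div_self (pow_ne_zero n hz)]
      · rw [div_mul_cancel₀ y hz]
  · rintro ⟨ζ, h1, rfl⟩
    rw [mul_pow, h1, one_mul]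

/-- The vectors `t (b_p - ζ b_q)` determine the pair `(p, q)` of the block and `ζ`. -/
lemma pair_root_unique {b : Fin 4 → (Fin 4 → ℂ)} (hb : LinearIndependent ℂ b) (s : Fin 3)
    {p q : Fin 4 × Fin 4} (hp : p ∈ pairs s) (hq : q ∈ pairs s) {ζ η t r : ℂ} (ht : t ≠ 0)
    (h : t • (b p.1 - ζ • b p.2) = r • (b q.1 - η • b q.2)) : p = q ∧ ζ = η := by
  have hsum : ∑ i, ((if i = p.1 then t else 0) - (if i = p.2 then t * ζ else 0) -
      (if i = q.1 then r else 0) + (if i = q.2 then r * η else 0)) • b i = 0 := by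
    simp only [add_smul, sub_smul, ite_smul, zero_smul, Finset.sum_add_distrib,
      Finset.sum_sub_distrib, Finset.sum_ite_eq', Finset.mem_univ, if_true]
    rw [mul_smul, mul_smul, ← smul_sub, h, smul_sub]
    abel
  have hcoef := Fintype.linearIndependent_iff.mp hb _ hsum
  have h1 := hcoef p.1
  have h2 := hcoef p.2
  fin_cases s
  · have hp' : p = (0, 1) ∨ p = (2, 3) := by simpa [pairs] using hp
    have hq' : q = (0, 1) ∨ q = (2, 3) := by simpa [pairs] using hq
    rcases hp' with rfl | rfl <;> rcases hq' with rfl | rfl <;> simp [ht] at h1 h2 ⊢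
    all_goals
      have h3 : t = r := sub_eq_zero.mp h1
      subst h3
      have h4 : t * (η - ζ) = 0 := by linear_combination h2
      exact (sub_eq_zero.mp ((mul_eq_zero.mp h4).resolve_left ht)).symm
  · have hp' : p = (0, 2) ∨ p = (1, 3) := by simpa [pairs] using hp
    have hq' : q = (0, 2) ∨ q = (1, 3) := by simpa [pairs] using hq
    rcases hp' with rfl | rfl <;> rcases hq' with rfl | rfl <;> simp [ht] at h1 h2 ⊢
    all_goals
      have h3 : t = r := sub_eq_zero.mp h1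
      subst h3
      have h4 : t * (η - ζ) = 0 := by linear_combination h2
      exact (sub_eq_zero.mp ((mul_eq_zero.mp h4).resolve_left ht)).symm
  · have hp' : p = (0, 3) ∨ p = (1, 2) := by simpa [pairs] using hp
    have hq' : q = (0, 3) ∨ q = (1, 2) := by simpa [pairs] using hq
    rcases hp' with rfl | rfl <;> rcases hq' with rfl | rfl <;> simp [ht] at h1 h2 ⊢
    all_goals
      have h3 : t = r := sub_eq_zero.mp h1
      subst h3
      have h4 : t * (η - ζ) = 0 := by linear_combination h2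
      exact (sub_eq_zero.mp ((mul_eq_zero.mp h4).resolve_left ht)).symm

lemma card_pairs (s : Fin 3) : (pairs s).card = 2 := by
  fin_cases s <;> rfl

/-- The size of the blocks. -/
lemma card_block {d n : ℕ} (hn : n ≠ 0) {a : Fin d → (Fin 4 → ℂ)}
    (ha : ∀ i j, i ≠ j → LinearIndependent ℂ ![a i, a j])
    {b : Fin 4 → (Fin 4 → ℂ)} (hb : LinearIndependent ℂ b) (s : Fin 3)
    (h1 : ∀ i, ∃ p ∈ pairs s, ∃ ζ t : ℂ, ζ ^ n = 1 ∧ t ≠ 0 ∧ a i = t • (b p.1 - ζ • b p.2))
    (h2 : ∀ p ∈ pairs s, ∀ ζ : ℂ, ζ ^ n = 1 → ∃ i, ∃ t : ℂ, t ≠ 0 ∧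
      a i = t • (b p.1 - ζ • b p.2)) : d = 2 * n := by
  classical
  choose p hp ζ t hζ ht ha' using h1
  have hroots : (Polynomial.nthRootsFinset n (1 : ℂ)).card = n :=
    (Complex.isPrimitiveRoot_exp n hn).card_nthRootsFinset
  have himg : Finset.univ.image (fun i : Fin d => (p i, ζ i)) =
      pairs s ×ˢ Polynomial.nthRootsFinset n (1 : ℂ) := by
    ext ⟨q, η⟩
    simp only [Finset.mem_image, Finset.mem_univ, true_and, Finset.mem_product, Prod.mk.injEq]
    constructor
    · rintro ⟨i, rfl, rfl⟩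
      exact ⟨hp i, (Polynomial.mem_nthRootsFinset (Nat.pos_of_ne_zero hn) _).mpr (hζ i)⟩
    · rintro ⟨hq, hη⟩
      rw [Polynomial.mem_nthRootsFinset (Nat.pos_of_ne_zero hn)] at hη
      obtain ⟨i, r, hr, hai⟩ := h2 q hq η hη
      refine ⟨i, ?_⟩
      have h3 := ha' i
      rw [hai] at h3
      obtain ⟨h4, h5⟩ := pair_root_unique hb s hq (hp i) hr h3
      exact ⟨h4.symm, h5.symm⟩
  have hinj : Function.Injective (fun i : Fin d => (p i, ζ i)) := by
    intro i j hij
    by_contra hne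
    have h3 := ha i j hne
    simp only [Prod.mk.injEq] at hij
    rw [LinearIndependent.pair_iff] at h3
    have h4 := h3 (t j) (-(t i)) (by
      rw [ha' i, ha' j, hij.1, hij.2, smul_smul, smul_smul, mul_comm, neg_mul, neg_smul,
        add_neg_cancel])
    exact ht j h4.1
  have hcard := Finset.card_image_of_injective Finset.univ hinj
  rw [himg, Finset.card_product, card_pairs, hroots, Finset.card_univ, Fintype.card_fin] at hcard
  exact hcard.symm

/-- Every net in `ℙ³` which is not a cone has three blocks, and it is projectively equivalent to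
some `Q_n`, `n ≥ 2`. -/
theorem IsNetP3.classification {k d : ℕ} {F : Fin k → MvPolynomial (Fin 4) ℂ}
    (h : IsNetP3 k d F) (hc : ¬ IsCone F) :
    k = 3 ∧ ∃ n, 2 ≤ n ∧ d = 2 * n ∧ ProjEquiv F (Q n) := by
  obtain ⟨a, ha0, haF, hv⟩ := h.exists_vnet hc
  have hk : k = 3 := hv.k_eq
  subst hk
  refine ⟨rfl, ?_⟩
  obtain ⟨n, hn, b, hb, σ, h1, h2⟩ := hv.classify
  have hn0 : n ≠ 0 := by omega
  have hT : IsUnit (Matrix.of b) := by
    rw [← Matrix.linearIndependent_rows_iff_isUnit]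
    exact hb
  refine ⟨n, hn, ?_, hT.unit, σ, fun v x => ?_⟩
  · refine card_block hn0 (a := a 0) ?_ hb (σ 0) ?_ ?_
    · intro i j hij
      exact hv.indep (0, i) (0, j) (fun h' => hij (congrArg Prod.snd h'))
    · intro i
      exact h1 (0, i)
    · intro p hp ζ hζ
      obtain ⟨⟨w, i⟩, hw, t, ht, hf⟩ := h2 0 p hp ζ hζ
      have hw' : w = 0 := hw
      subst hw'
      exact ⟨i, t, ht, hf⟩
  have hTx : ∀ i, ((hT.unit : Matrix (Fin 4) (Fin 4) ℂ) *ᵥ x) i = b i ⬝ᵥ x := fun i => rfl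
  rw [eval_Q]
  simp only [hTx]
  rw [haF v, eval_prod_linForm, Finset.prod_eq_zero_iff]
  constructor
  · rintro ⟨i, _, hi⟩
    obtain ⟨p, hp, ζ, t, hζ, ht, hf⟩ := h1 (v, i)
    refine ⟨p, hp, ?_⟩
    rw [pow_eq_pow_iff_root hn0]
    refine ⟨ζ, hζ, ?_⟩
    have hf' : a v i = t • (b p.1 - ζ • b p.2) := hf
    rw [hf', smul_dotProduct, sub_dotProduct, smul_dotProduct, smul_eq_mul, smul_eq_mul,
      mul_eq_zero] at hi
    exact sub_eq_zero.mp (hi.resolve_left ht)
  · rintro ⟨p, hp, hpx⟩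
    rw [pow_eq_pow_iff_root hn0] at hpx
    obtain ⟨ζ, hζ, hx⟩ := hpx
    obtain ⟨⟨w, i⟩, hw, t, ht, hf⟩ := h2 v p hp ζ hζ
    have hw' : w = v := hw
    subst hw'
    refine ⟨i, Finset.mem_univ i, ?_⟩
    have hf' : a w i = t • (b p.1 - ζ • b p.2) := hf
    rw [hf', smul_dotProduct, sub_dotProduct, smul_dotProduct, smul_eq_mul, smul_eq_mul, hx,
      sub_self, mul_zero]

end Pool.Agent.H732_net4
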